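import Mathlib
import Pool.Agent.Q166.WalkComb

/-!
# Absolute and signed weighted walk sums are not comparable

For every `m ≥ 7` and almost every `z ∈ ℂ^m` the ratio `A_n(z) / |S_n(z)|` is unbounded in `n`.
The step `k : Fin m` stands for the step `2 (k + 1)`; the definitions `Q166.Walk.disp`,
`Q166.Walk.vertex` and `Q166.Walk.h` are in `Pool/Agent/Q166/WalkComb.lean`.

Idea: in units of `2`, put `U(i) = v(i) ∑_k z_k U(i-k)` with `v(i) = 1/(4i(n-i))`. In two
consecutive steps of total `2m-2` the walks `(m,m-2)`, `(m-1,m-1)`, `(m-2,m)` have weights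
`z_m z_{m-2}`, `z_{m-1}^2`, `z_m z_{m-2}` times almost the same factor, and these cancel partially
unless `z_m z_{m-2}` and `z_{m-1}^2` have the same argument. Comparison with `s^{-i}`, where
`∑ |z_k| s^k = n^2`, over the range `|i - n/2| ≤ c n^{1-2/m}` shows that the cancellation
accumulates to a factor `exp(-c n^{1-6/m})`.
-/

set_option autoImplicit false

namespace Pool.Agent.Results.MP_269329_co.Disproof

open Q166.Walk Finset MeasureTheory

/-- the admissible positive walks `X_n^+` from `-n` to `n` with steps in `{2, 4, ..., 2m}` -/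
def Walks (m n : ℕ) : Set (List (Fin m)) :=
  {x | x ≠ [] ∧ disp x = 2 * n ∧
    ∀ t, 1 ≤ t → t < x.length → vertex n x t ≠ (n : ℤ) ∧ vertex n x t ≠ -(n : ℤ)}

/-- `A_n(z)` -/
noncomputable def A {m : ℕ} (n : ℕ) (z : Fin m → ℂ) : ℝ := ∑ᶠ x ∈ Walks m n, ‖h n z x‖

/-- `S_n(z)` -/
noncomputable def S {m : ℕ} (n : ℕ) (z : Fin m → ℂ) : ℂ := ∑ᶠ x ∈ Walks m n, h n z x

/-- there is a constant `C < ∞` with `A_n(z) ≤ C |S_n(z)|` for all `n` -/
def Comparable {m : ℕ} (z : Fin m → ℂ) : Prop := ∃ C : ℝ, ∀ n : ℕ, A n z ≤ C * ‖S n z‖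

/-! ### the sums over walks -/

variable {m : ℕ}

theorem walks_eq {n : ℕ} (hn : 1 ≤ n) : Walks m n = ↑(wl m n) := by
  ext x
  rw [Finset.mem_coe, mem_wl]
  constructor
  · rintro ⟨-, hx, -⟩
    exact hx
  · intro hx
    refine ⟨?_, hx, ?_⟩
    · rintro rfl
      rw [disp_nil] at hx
      omega
    · intro t ht1 ht2
      have h1 : disp (x.take t) + disp (x.drop t) = 2 * n := by
        rw [← disp_append, List.take_append_drop, hx]
      have h2 := two_length_le (x.take t)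
      have h3 := two_length_le (x.drop t)
      rw [List.length_take] at h2
      rw [List.length_drop] at h3
      unfold vertex
      omega

theorem S_eq {n : ℕ} (hn : 1 ≤ n) (z : Fin m → ℂ) : S n z = T n z n := by
  unfold S T
  rw [walks_eq hn, finsum_mem_coe_finset]
  apply Finset.sum_congr rfl
  intro x hx
  rw [mem_wl] at hx
  exact h_eq_hr n z hx

theorem A_eq {n : ℕ} (hn : 1 ≤ n) (z : Fin m → ℂ) : A n z = TR n z n := by
  unfold A TR
  rw [walks_eq hn, finsum_mem_coe_finset]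
  apply Finset.sum_congr rfl
  intro x hx
  rw [mem_wl] at hx
  rw [h_eq_hr n z hx]

/-! ### non-comparability -/

theorem not_comparable (hm : 7 ≤ m) (z : Fin m → ℂ) (hz : ∀ k, z k ≠ 0)
    (hδ : ‖z ⟨m - 1, by omega⟩ * z ⟨m - 3, by omega⟩ + z ⟨m - 2, by omega⟩ ^ 2‖ <
      ‖z ⟨m - 1, by omega⟩ * z ⟨m - 3, by omega⟩‖ + ‖z ⟨m - 2, by omega⟩ ^ 2‖) :
    ¬ Comparable z := by
  rintro ⟨C, hC⟩
  have hz' : ∀ k < m, zx z k ≠ 0 := by
    intro k hk
    unfold zx
    rw [dif_pos hk]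
    exact hz _
  have e1 : zx z (m - 1) = z ⟨m - 1, by omega⟩ := by
    unfold zx; rw [dif_pos (by omega)]
  have e2 : zx z (m - 2) = z ⟨m - 2, by omega⟩ := by
    unfold zx; rw [dif_pos (by omega)]
  have e3 : zx z (m - 3) = z ⟨m - 3, by omega⟩ := by
    unfold zx; rw [dif_pos (by omega)]
  have hδ' : ‖zx z (m - 1) * zx z (m - 3) + zx z (m - 2) * zx z (m - 2)‖ <
      ‖zx z (m - 1) * zx z (m - 3)‖ + ‖zx z (m - 2) * zx z (m - 2)‖ := by
    rw [e1, e2, e3, ← pow_two]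
    exact hδ
  obtain ⟨n, hmn, hn⟩ := main_estimate hm hz' hδ' (ρ := 1 / (2 * (|C| + 1)))
    (by positivity)
  have h1 := hn _ _ (sys n z (by omega) (hz _))
  have hS : ∑ k ∈ range m, zx z k * ((w n (n - 1 - k) : ℂ) * T n z (n - 1 - k)) = S n z := by
    rw [S_eq (by omega), T_rec' n z (by omega) hmn]
  have hA : ∑ k ∈ range m, ‖zx z k‖ * (w n (n - 1 - k) * TR n z (n - 1 - k)) = A n z := by
    rw [A_eq (by omega), TR_rec' n z (by omega) le_rfl hmn]
  rw [hS, hA] at h1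
  have hApos : 0 < A n z := by
    rw [A_eq (by omega)]
    exact TR_pos n z (by omega) (hz _) n le_rfl
  have h2 := hC n
  have h3 : C * ‖S n z‖ ≤ |C| * (1 / (2 * (|C| + 1)) * A n z) := by
    calc C * ‖S n z‖ ≤ |C| * ‖S n z‖ := mul_le_mul_of_nonneg_right (le_abs_self C) (norm_nonneg _)
      _ ≤ _ := mul_le_mul_of_nonneg_left h1 (abs_nonneg C)
  have h4 : |C| * (1 / (2 * (|C| + 1)) * A n z) < A n z := by
    have h5 : |C| * (1 / (2 * (|C| + 1))) < 1 := by
      rw [mul_one_div, div_lt_one (by positivity)]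
      linarith [abs_nonneg C]
    calc |C| * (1 / (2 * (|C| + 1)) * A n z) = |C| * (1 / (2 * (|C| + 1))) * A n z := by ring
      _ < 1 * A n z := mul_lt_mul_of_pos_right h5 hApos
      _ = A n z := one_mul _
  linarith

/-! ### the exceptional set is a null set -/

theorem im_eq_zero {a b : ℂ} (h : ¬ ‖a + b‖ < ‖a‖ + ‖b‖) : (a * (starRingEnd ℂ) b).im = 0 := by
  have h1 : ‖a + b‖ = ‖a‖ + ‖b‖ := le_antisymm (norm_add_le a b) (not_lt.mp h)
  have h2 : ‖a + b‖ ^ 2 = ‖a‖ ^ 2 + ‖b‖ ^ 2 + 2 * (a * (starRingEnd ℂ) b).re := by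
    rw [← Complex.normSq_eq_norm_sq, ← Complex.normSq_eq_norm_sq, ← Complex.normSq_eq_norm_sq,
      Complex.normSq_add]
  have h3 : (a * (starRingEnd ℂ) b).re = ‖a * (starRingEnd ℂ) b‖ := by
    rw [norm_mul, RCLike.norm_conj]
    rw [h1] at h2
    nlinarith
  have h4 := Complex.sq_norm (a * (starRingEnd ℂ) b)
  rw [Complex.normSq_apply, ← h3] at h4
  have h5 : (a * (starRingEnd ℂ) b).im * (a * (starRingEnd ℂ) b).im = 0 := by nlinarith
  exact mul_self_eq_zero.mp h5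

theorem line_null (c : ℂ) (hc : c ≠ 0) : volume {x : ℂ | (x * c).im = 0} = 0 := by
  let L : ℂ →ₗ[ℝ] ℝ :=
    { toFun := fun x => (x * c).im
      map_add' := by intro x y; rw [add_mul, Complex.add_im]
      map_smul' := by intro r x; simp [Complex.mul_im, mul_add, mul_assoc] }
  have h1 : {x : ℂ | (x * c).im = 0} = (LinearMap.ker L : Set ℂ) := by
    ext x
    simp [L]
  rw [h1]
  apply Measure.addHaar_submodule
  intro h2
  have h3 : Complex.I / c ∈ LinearMap.ker L := by rw [h2]; trivial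
  rw [LinearMap.mem_ker] at h3
  have h4 : (Complex.I / c * c).im = 0 := h3
  rw [div_mul_cancel₀ _ hc] at h4
  simp at h4

theorem null_aux {n : ℕ} (i : Fin (n + 1)) (c : (Fin n → ℂ) → ℂ) (hc : Measurable c) :
    volume {z : Fin (n + 1) → ℂ | (z i * c (fun j => z (i.succAbove j))).im = 0 ∧
      c (fun j => z (i.succAbove j)) ≠ 0} = 0 := by
  set s : Set (ℂ × (Fin n → ℂ)) := {p | (p.1 * c p.2).im = 0 ∧ c p.2 ≠ 0} with hs
  have hc2 : Measurable (fun p : ℂ × (Fin n → ℂ) => c p.2) := hc.comp measurable_snd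
  have hmeas : MeasurableSet s := by
    apply MeasurableSet.inter
    · exact measurableSet_eq_fun (Complex.measurable_im.comp (measurable_fst.mul hc2))
        measurable_const
    · exact (measurableSet_eq_fun hc2 measurable_const).compl
  have hpre : {z : Fin (n + 1) → ℂ | (z i * c (fun j => z (i.succAbove j))).im = 0 ∧
      c (fun j => z (i.succAbove j)) ≠ 0} =
      (MeasurableEquiv.piFinSuccAbove (fun _ => ℂ) i) ⁻¹' s := rfl
  rw [hpre, (volume_preserving_piFinSuccAbove (fun _ => ℂ) i).measure_preimage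
    hmeas.nullMeasurableSet, Measure.volume_eq_prod, Measure.prod_apply_symm hmeas,
    lintegral_eq_zero_iff' (measurable_measure_prodMk_right hmeas).aemeasurable]
  apply Filter.Eventually.of_forall
  intro y
  show volume ((fun x => (x, y)) ⁻¹' s) = 0
  by_cases hy : c y = 0
  · have : (fun x => (x, y)) ⁻¹' s = ∅ := by
      ext x
      simp [hs, hy]
    rw [this, measure_empty]
  · refine measure_mono_null ?_ (line_null (c y) hy)
    intro x hx
    exact hx.1

theorem ae_cond (hm : 7 ≤ m) : ∀ᵐ z : Fin m → ℂ, (∀ k, z k ≠ 0) ∧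
    ‖z ⟨m - 1, by omega⟩ * z ⟨m - 3, by omega⟩ + z ⟨m - 2, by omega⟩ ^ 2‖ <
      ‖z ⟨m - 1, by omega⟩ * z ⟨m - 3, by omega⟩‖ + ‖z ⟨m - 2, by omega⟩ ^ 2‖ := by
  obtain ⟨n, rfl⟩ : ∃ n, m = n + 1 := ⟨m - 1, by omega⟩
  have h1 : ∀ᵐ z : Fin (n + 1) → ℂ, ∀ k, z k ≠ 0 := by
    rw [ae_all_iff]
    intro k
    rw [ae_iff]
    simp only [not_not]
    exact Measure.pi_hyperplane (fun _ => (volume : Measure ℂ)) k 0
  have h2 : ∀ᵐ z : Fin (n + 1) → ℂ,
      ¬ ((z (Fin.last n) * (z ⟨n - 2, by omega⟩ *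
        (starRingEnd ℂ) (z ⟨n - 1, by omega⟩ ^ 2))).im = 0 ∧
      z ⟨n - 2, by omega⟩ * (starRingEnd ℂ) (z ⟨n - 1, by omega⟩ ^ 2) ≠ 0) := by
    rw [ae_iff]
    have h3 := null_aux (Fin.last n) (fun y : Fin n → ℂ => y ⟨n - 2, by omega⟩ *
      (starRingEnd ℂ) (y ⟨n - 1, by omega⟩ ^ 2)) (by
        apply Measurable.mul (measurable_pi_apply _)
        exact Complex.continuous_conj.measurable.comp ((measurable_pi_apply _).pow_const 2))
    simp only [not_not]
    simp only [Fin.succAbove_last] at h3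
    exact h3
  filter_upwards [h1, h2] with z hz1 hz2
  refine ⟨hz1, ?_⟩
  by_contra hcon
  apply hz2
  have e1 : (⟨n + 1 - 1, by omega⟩ : Fin (n + 1)) = Fin.last n := rfl
  have e2 : (⟨n + 1 - 2, by omega⟩ : Fin (n + 1)) = ⟨n - 1, by omega⟩ :=
    Fin.ext (show n + 1 - 2 = n - 1 by omega)
  have e3 : (⟨n + 1 - 3, by omega⟩ : Fin (n + 1)) = ⟨n - 2, by omega⟩ :=
    Fin.ext (show n + 1 - 3 = n - 2 by omega)
  rw [e1, e2, e3] at hcon
  constructor
  · have := im_eq_zero hcon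
    rw [mul_assoc] at this
    exact this
  · apply mul_ne_zero (hz1 _)
    rw [Ne, map_eq_zero]
    exact pow_ne_zero _ (hz1 _)

/-- For every `m ≥ 7` and almost every `z ∈ ℂ^m` there is no constant `C` with
`A_n(z) ≤ C |S_n(z)|` for all `n` (more precisely this holds whenever all `z_k ≠ 0` and
`z_m z_{m-2}`, `z_{m-1}^2` do not have the same argument). In particular Q1 has a negative
answer. -/
theorem result :
    (∀ m : ℕ, 7 ≤ m → ∀ᵐ z : Fin m → ℂ, ¬ Comparable z) ∧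
    (∀ (m : ℕ) (hm : 7 ≤ m) (z : Fin m → ℂ), (∀ k, z k ≠ 0) →
      ‖z ⟨m - 1, by omega⟩ * z ⟨m - 3, by omega⟩ + z ⟨m - 2, by omega⟩ ^ 2‖ <
        ‖z ⟨m - 1, by omega⟩ * z ⟨m - 3, by omega⟩‖ + ‖z ⟨m - 2, by omega⟩ ^ 2‖ →
      ¬ Comparable z) ∧
    ¬ (∀ m : ℕ, 1 ≤ m → ∀ᵐ z : Fin m → ℂ, Comparable z) := by
  have h1 : ∀ m : ℕ, 7 ≤ m → ∀ᵐ z : Fin m → ℂ, ¬ Comparable z := by
    intro m hm
    filter_upwards [ae_cond hm] with z hz
    exact not_comparable hm z hz.1 hz.2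
  refine ⟨h1, fun m hm z hz hδ => not_comparable hm z hz hδ, ?_⟩
  intro h2
  have h3 := (h2 7 (by norm_num)).and (h1 7 le_rfl)
  have h4 : ∀ᵐ z : Fin 7 → ℂ, False := by
    filter_upwards [h3] with z hz
    exact hz.2 hz.1
  rw [Filter.eventually_false_iff_eq_bot, ae_eq_bot] at h4
  have h5 : (volume : Measure (Fin 7 → ℂ)) ≠ 0 := by
    intro h6
    have h7 : volume (Set.univ : Set (Fin 7 → ℂ)) ≠ 0 :=
      (isOpen_univ.measure_pos volume Set.univ_nonempty).ne'
    rw [h6] at h7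
    simp at h7
  exact h5 h4

end Pool.Agent.Results.MP_269329_co.Disproof
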